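import Pool.Agent.Helper86.QA.St3

/-!
Project QD, part A (MP_d112a4_gt), module FLB: the indicator functions have finite total
variation.
-/

set_option autoImplicit false

open MeasureTheory Matrix Set Topology
open scoped ENNReal ComplexConjugate

namespace Pool.Agent.Helper73.QA

open Pool.Agent.Helper86.QA

private theorem ll_sq : (1 : ℝ) < ll ^ 2 := by
  have h : (0 : ℝ) ≤ Real.sqrt 3 := Real.sqrt_nonneg 3
  unfold ll
  nlinarith

private theorem fi_cases (B : Set ℂ) (δ : ℝ) (x : Pt) : fi B δ x = 1 ∧ hv B x < δ ∨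
    fi B δ x = 0 ∧ δ ≤ hv B x := by
  unfold fi
  by_cases h : hv B x < δ
  · left
    exact ⟨if_pos h, h⟩
  · right
    exact ⟨if_neg h, not_lt.1 h⟩

private theorem kk_cases (x y : Pt) : kk x y = 1 ∧ ch x y ≤ 2 ∨ kk x y = 0 := by
  unfold kk
  by_cases h : ch x y ≤ 2
  · left
    exact ⟨if_pos h, h⟩
  · right
    exact if_neg h

theorem hFLB (hCHI : StCHI) (hKRN : StKRN) (hHME : StHME) (hACU : StACU) (hFVS : StFVS) :
    StFLB := by
  intro Γ _ ρ A B hK D hD δ hδ
  obtain ⟨hδ0, hδ1⟩ := hδ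
  have hAm : MeasurableSet A := hK.opA.measurableSet
  have hBm : MeasurableSet B := hK.opB.measurableSet
  have hl := ll_sq
  have hl0 : (0 : ℝ) < ll ^ 2 := by linarith
  have hsum : ∀ x ∈ up, hv A x + hv B x = 1 := fun x hx =>
    hHME.2.1 A B x hAm hBm hK.dis hK.nul hx
  have hvBm : Measurable (hv B) := (hHME.2.2.1 B hBm).1
  have hvAm : Measurable (hv A) := (hHME.2.2.1 A hAm).1
  have hHar := hHME.2.2.2.1
  have hSm : ∀ ε : ℝ, MeasurableSet {x : Pt | ε ≤ hv A x ∧ hv A x ≤ 1 - ε} := fun ε =>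
    (measurableSet_le measurable_const hvAm).inter (measurableSet_le hvAm measurable_const)
  have hfin : ∀ (ε : ℝ) (c : ℝ≥0∞), 0 < ε → c ≠ ∞ → ∀ g : Pt → ℝ≥0∞,
      (∀ x ∈ up, g x ≤ {x : Pt | ε ≤ hv A x ∧ hv A x ≤ 1 - ε}.indicator (fun _ => c) x) →
      ∫⁻ x in D, g x ∂vol ≠ ∞ := by
    intro ε c hε hc g hg
    have h1 : ∫⁻ x in D, g x ∂vol ≤ ∫⁻ x in D,
        {x : Pt | ε ≤ hv A x ∧ hv A x ≤ 1 - ε}.indicator (fun _ => c) x ∂vol := by
      refine lintegral_mono_ae ?_
      filter_upwards [ae_restrict_mem hD.mD] with x hx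
      exact hg x (hD.sub hx)
    rw [lintegral_indicator_const (hSm ε), Measure.restrict_apply (hSm ε)] at h1
    have h2 := hFVS Γ ρ A B hK D hD ε hε
    rw [inter_comm] at h2
    exact (h1.trans_lt (ENNReal.mul_lt_top hc.lt_top h2)).ne
  have h6 : ∀ x ∈ up, ∀ y ∈ up, ch x y ≤ 2 → fi B δ x ≠ fi B δ y →
      δ / ll ^ 2 ≤ hv B x ∧ hv B x < ll ^ 2 * δ ∧ (1 - δ) / ll ^ 2 ≤ hv A x := by
    intro x hx y hy hxy hne
    have sx := hsum x hx
    have sy := hsum y hy
    have hyx : ch y x ≤ 2 := by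
      rw [← (hCHI.1 x hx y hy).2.1]
      exact hxy
    have b1 := hHar B hBm x hx y hy hxy
    have b2 := hHar B hBm y hy x hx hyx
    have a1 := hHar A hAm x hx y hy hxy
    rcases fi_cases B δ x with ⟨e1, e2⟩ | ⟨e1, e2⟩ <;>
      rcases fi_cases B δ y with ⟨e3, e4⟩ | ⟨e3, e4⟩
    · exact absurd (e1.trans e3.symm) hne
    · refine ⟨?_, ?_, ?_⟩
      · rw [div_le_iff₀ hl0]
        linarith
      · nlinarith
      · rw [div_le_iff₀ hl0]
        nlinarith
    · refine ⟨?_, ?_, ?_⟩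
      · rw [div_le_iff₀ hl0]
        nlinarith
      · nlinarith
      · rw [div_le_iff₀ hl0]
        linarith
    · exact absurd (e1.trans e3.symm) hne
  have hfm : Measurable (fi B δ) := by
    unfold fi
    exact Measurable.ite (measurableSet_lt hvBm measurable_const) measurable_const
      measurable_const
  refine ⟨hfm, ?_, ?_, ?_, ?_, h6⟩
  · intro x
    rcases fi_cases B δ x with ⟨e1, -⟩ | ⟨e1, -⟩
    · rw [e1, abs_one]
    · rw [e1, abs_zero]
      exact zero_le_one
  · intro γ x hx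
    have h1 := (hACU Γ ρ A B hK).2.2.2.2.1 γ x hx
    unfold fi
    rw [h1.1]
  · set ε : ℝ := min (δ / ll ^ 2) ((1 - δ) / ll ^ 2) with hε
    have hε0 : 0 < ε := lt_min (div_pos hδ0 hl0) (div_pos (by linarith) hl0)
    refine hfin ε (ENNReal.ofReal VV) hε0 ENNReal.ofReal_ne_top _ ?_
    intro x hx
    by_cases hxS : x ∈ {x : Pt | ε ≤ hv A x ∧ hv A x ≤ 1 - ε}
    · rw [indicator_of_mem hxS, ← hKRN.2.1 x hx]
      refine lintegral_mono fun y => ENNReal.ofReal_le_ofReal ?_
      have h1 : |fi B δ x - fi B δ y| ≤ 1 := by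
        rcases fi_cases B δ x with ⟨e1, -⟩ | ⟨e1, -⟩ <;>
          rcases fi_cases B δ y with ⟨e3, -⟩ | ⟨e3, -⟩ <;> rw [e1, e3] <;> norm_num
      rcases kk_cases x y with ⟨e, -⟩ | e
      · rw [e, one_mul]
        exact h1
      · rw [e, zero_mul]
    · rw [indicator_of_notMem hxS]
      refine le_of_eq ?_
      have h1 : ∀ᵐ y ∂vol, ENNReal.ofReal (kk x y * |fi B δ x - fi B δ y|) = 0 := by
        filter_upwards [ae_up] with y hy
        rcases kk_cases x y with ⟨e, hc⟩ | e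
        · by_cases hne : fi B δ x = fi B δ y
          · rw [hne, sub_self, abs_zero, mul_zero, ENNReal.ofReal_zero]
          · exfalso
            apply hxS
            obtain ⟨p1, p2, p3⟩ := h6 x hx y hy hc hne
            have sx := hsum x hx
            refine ⟨(min_le_right _ _).trans p3, ?_⟩
            have : ε ≤ δ / ll ^ 2 := min_le_left _ _
            linarith
        · rw [e, zero_mul, ENNReal.ofReal_zero]
      rw [lintegral_congr_ae h1, lintegral_zero]
  · intro δ' hδ'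
    obtain ⟨hδ'0, hδ'1⟩ := hδ'
    set ε : ℝ := min (min δ δ') (1 - max δ δ') with hε
    have hε0 : 0 < ε := by
      refine lt_min (lt_min hδ0 hδ'0) ?_
      have : max δ δ' < 1 := max_lt hδ1 hδ'1
      linarith
    refine hfin ε 1 hε0 ENNReal.one_ne_top _ ?_
    intro x hx
    have sx := hsum x hx
    have e1 : ε ≤ δ := (min_le_left _ _).trans (min_le_left _ _)
    have e2 : ε ≤ δ' := (min_le_left _ _).trans (min_le_right _ _)
    have e3 : ε ≤ 1 - δ := (min_le_right _ _).trans (by linarith [le_max_left δ δ'])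
    have e4 : ε ≤ 1 - δ' := (min_le_right _ _).trans (by linarith [le_max_right δ δ'])
    rcases fi_cases B δ x with ⟨f1, f2⟩ | ⟨f1, f2⟩ <;>
      rcases fi_cases B δ' x with ⟨f3, f4⟩ | ⟨f3, f4⟩
    · rw [f1, f3, sub_self, abs_zero, ENNReal.ofReal_zero]
      exact zero_le
    · have hm : x ∈ {x : Pt | ε ≤ hv A x ∧ hv A x ≤ 1 - ε} :=
        ⟨by linarith, by linarith⟩
      rw [f1, f3, indicator_of_mem hm]
      norm_num
    · have hm : x ∈ {x : Pt | ε ≤ hv A x ∧ hv A x ≤ 1 - ε} :=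
        ⟨by linarith, by linarith⟩
      rw [f1, f3, indicator_of_mem hm]
      norm_num
    · rw [f1, f3, sub_self, abs_zero, ENNReal.ofReal_zero]
      exact zero_le

end Pool.Agent.Helper73.QA
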